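import Pool.Agent.Helper3.FewP.GoalsB

/-!
# Packet STRIP-INJ (MP_d3128a_ag)
-/

set_option autoImplicit false

namespace Pool.Agent.Helper46.FewP

open Pool.Agent.Helper97.Tate
open Pool.Agent.Helper3.FewP

theorem lift_inj {k : Type} [Field k] [CharZero k] {b : ℕ} (z : kˣ) (x y : Fin b → kˣ)
    (h : Gen z x y) : Function.Injective
      (AddMonoidAlgebra.lift ℚ k (GG b) (mhB z x y) : AddMonoidAlgebra ℚ (GG b) →+* k) := by
  rw [injective_iff_map_eq_zero]
  intro u hu
  have hu' : (AddMonoidAlgebra.lift ℚ k (GG b) (mhB z x y)) u = 0 := hu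
  rw [AddMonoidAlgebra.lift_apply] at hu'
  have h1 : Finsupp.linearCombination ℚ (fun g : GG b => (mon z x y g : k)) u.coeff = 0 := by
    rw [Finsupp.linearCombination_apply]
    exact hu'
  have h2 : u.coeff = 0 := (linearIndependent_iff.1 h) _ h1
  ext g
  rw [h2]
  rfl

theorem t : G_INJ := by
  intro k _ _ b z x y h
  have h1 : Function.Injective (algebraMap (OO k) (KK k)) := IsFractionRing.injective (OO k) (KK k)
  have h2 : Function.Injective
      (PowerSeries.map (AddMonoidAlgebra.lift ℚ k (GG b) (mhB z x y) :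
        AddMonoidAlgebra ℚ (GG b) →+* k)) := PowerSeries.map_injective _ (lift_inj z x y h)
  exact h1.comp h2

end Pool.Agent.Helper46.FewP
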